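import Mathlib
import Pool.Agent.H96.Sing.Defs
import Pool.Agent.H24.SH.Defs
import Pool.Agent.H24.SH.Final

/-!
# Sizes of difference sets with fixed `l`: the order of magnitude

For every fixed `l > 0` (perfect squares included) the number of `k ≤ K` for which some group has a
`(v,k,l)`-difference set is at most `C K / log K`, and for `l = 1` (planar difference sets,
cyclic or in arbitrary groups) this is the exact order of magnitude: the prime power conjecture
for planar difference sets holds up to a constant factor in the counting function.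

More generally the upper bound holds for the `k ≤ K` for which some symmetric `(v,k,l)`-design has,
for every odd prime `q` dividing `v`, an automorphism of order `q` with an even number of fixed
points (for instance none); see `Pool.Agent.H24.SH.Defs` for `richSizes` and `planarSizes`, and
`Pool.Agent.H96.Sing.Defs` for `IsSymmetricDesign`, `IsAut` and `IsDifferenceSet`.
-/

namespace Pool.Agent.H24.SH.DifferenceSetSizes

open Pool.Agent.H96.Sing Pool.Agent.H24.SH

theorem result :
    (∀ l : ℕ, 0 < l → ∃ C : ℝ, 0 < C ∧ ∀ K : ℕ, 2 ≤ K →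
      ((richSizes l K).ncard : ℝ) ≤ C * K / Real.log K) ∧
    (∃ c : ℝ, 0 < c ∧ ∀ K : ℕ, 3 ≤ K → c * K / Real.log K ≤ ((planarSizes K).ncard : ℝ)) ∧
    (∀ l K, (richSizes l K).Finite) ∧
    (∀ K, planarSizes K ⊆ richSizes 1 K) ∧
    (∀ (l : ℕ) (G : Type) [Group G] [Finite G] (D : Finset G), IsDifferenceSet G D l →
      0 < D.card → D.card < Nat.card G → ∀ K, D.card ≤ K → D.card ∈ richSizes l K) ∧
    (∀ (l v k : ℕ) (B : Fin v → Finset (Fin v)), IsSymmetricDesign v k l B → 0 < k →
      ∀ H : Subgroup (Equiv.Perm (Fin v)), (∀ s ∈ H, IsAut B s) → (∀ x y, ∃ s ∈ H, s x = y) →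
      ((∀ x : Fin v, Nat.Coprime (Nat.card (MulAction.stabilizer H x)) v) ∨
        Group.IsNilpotent H) → ∀ K, k ≤ K → k ∈ richSizes l K) :=
  ⟨rich_bound, ⟨3/50, by norm_num, planar_lower⟩, rich_finite, planar_sub,
    fun l G _ _ D hD h0 hlt K hK => diffSet_rich l G D hD h0 hlt K hK,
    fun l v k B hB hk H hH ht hc K hK => group_rich l v k B hB hk H hH ht hc K hK⟩

end Pool.Agent.H24.SH.DifferenceSetSizes
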